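import Mathlib

set_option autoImplicit false

open Filter Topology Finset

namespace Pool.Agent.Lib.MP_b372c7_an

/-- If the squares of a nonnegative sequence have bounded sums, then
`a n * (sum of the first n+1 terms + K)` is frequently small. -/
theorem jones (a : ℕ → ℝ) (ha : ∀ n, 0 ≤ a n) (B : ℝ)
    (hB : ∀ n, ∑ k ∈ range n, a k ^ 2 ≤ B) (K : ℝ) (hK : 0 ≤ K) (ε : ℝ) (hε : 0 < ε) :
    ∃ᶠ n in atTop, a n * (∑ k ∈ range (n + 1), a k + K) ≤ ε := by
  by_contra hcon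
  rw [Filter.not_frequently] at hcon
  have hB0 : 0 ≤ B := by simpa using hB 0
  have hsum : Summable (fun n => a n ^ 2) :=
    summable_of_sum_range_le (fun n => sq_nonneg _) hB
  have hev : ∀ᶠ n : ℕ in atTop,
      ‖(1 : ℝ) / ((n + 1 : ℕ) : ℝ)‖ ≤ (2 * B + 2 * K ^ 2) / ε ^ 2 * a n ^ 2 := by
    filter_upwards [hcon] with n hn
    push Not at hn
    set A := ∑ k ∈ range (n + 1), a k with hA
    have hA0 : 0 ≤ A := sum_nonneg (fun k _ => ha k)
    have hCS : A ^ 2 ≤ ((n + 1 : ℕ) : ℝ) * B := by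
      have h1 := sq_sum_le_card_mul_sum_sq (s := range (n + 1)) (f := a)
      rw [card_range] at h1
      calc A ^ 2 ≤ ((n + 1 : ℕ) : ℝ) * ∑ k ∈ range (n + 1), a k ^ 2 := h1
        _ ≤ ((n + 1 : ℕ) : ℝ) * B := by gcongr; exact hB _
    have hn1 : (1 : ℝ) ≤ ((n + 1 : ℕ) : ℝ) := by exact_mod_cast Nat.succ_le_succ (Nat.zero_le n)
    set m : ℝ := ((n + 1 : ℕ) : ℝ) with hm
    have h2 : (A + K) ^ 2 ≤ m * (2 * B + 2 * K ^ 2) := by
      nlinarith [sq_nonneg (A - K), sq_nonneg K]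
    have h3 : ε ^ 2 ≤ (a n * (A + K)) ^ 2 := by gcongr
    have h4 : ε ^ 2 ≤ a n ^ 2 * (m * (2 * B + 2 * K ^ 2)) := by
      calc ε ^ 2 ≤ (a n * (A + K)) ^ 2 := h3
        _ = a n ^ 2 * (A + K) ^ 2 := by ring
        _ ≤ _ := by gcongr
    have hm0 : 0 < m := by linarith
    rw [Real.norm_of_nonneg (by positivity), div_mul_eq_mul_div, div_le_div_iff₀ hm0 (by positivity)]
    nlinarith
  have h5 : Summable (fun n : ℕ => (1 : ℝ) / ((n + 1 : ℕ) : ℝ)) :=
    Summable.of_norm_bounded_eventually_nat (hsum.mul_left _) hev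
  exact Real.not_summable_one_div_natCast
    ((summable_nat_add_iff (f := fun n : ℕ => (1 : ℝ) / (n : ℝ)) 1).mp h5)

/-- Abstract convergence theorem for alternating minimisation. -/
theorem alternating {E : Type*} [NormedAddCommGroup E] [NormedSpace ℝ E] [CompleteSpace E]
    (f : E → ℝ) (hf : Continuous f) (J : E → E →ₗ[ℝ] ℝ) (G₁ G₂ : Submodule ℝ E) (r : ℕ → E)
    (c C : ℝ) (hc : 0 < c) (hC : 0 ≤ C)
    (hf0 : ∀ n, 0 ≤ f (r n))
    (hconv : ∀ n d, f (r n) + J (r n) d + c * ‖d‖ ^ 2 ≤ f (r n + d))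
    (hlip : ∀ n d, |J (r (n + 1)) d - J (r n) d| ≤ C * ‖r n - r (n + 1)‖ * ‖d‖)
    (h1 : ∀ n, r n - r (n + 1) ∈ G₁ ∨ r n - r (n + 1) ∈ G₂)
    (h2 : ∀ n, J (r (n + 1)) (r n - r (n + 1)) = 0)
    (h3 : ∀ n, ∀ g ∈ G₁, J (r (n + 1)) g = 0 ∨ J (r (n + 2)) g = 0)
    (h4 : ∀ n, ∀ g ∈ G₂, J (r (n + 1)) g = 0 ∨ J (r (n + 2)) g = 0) :
    ∃ y, Tendsto r atTop (𝓝 y) ∧ ∀ u ∈ G₁, ∀ v ∈ G₂, f y ≤ f (r 0 - (u + v)) := by
  set a : ℕ → ℝ := fun n => ‖r n - r (n + 1)‖ with ha
  have ha0 : ∀ n, 0 ≤ a n := fun n => norm_nonneg _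
  have hdec : ∀ n, f (r (n + 1)) + c * a n ^ 2 ≤ f (r n) := by
    intro n
    have := hconv (n + 1) (r n - r (n + 1))
    rw [h2 n, add_zero, add_sub_cancel] at this
    exact this
  have hanti : Antitone (fun n => f (r n)) := by
    refine antitone_nat_of_succ_le (fun n => ?_)
    have := hdec n
    have h0 : 0 ≤ c * a n ^ 2 := by positivity
    linarith
  have hsq : ∀ n, ∑ k ∈ range n, a k ^ 2 ≤ f (r 0) / c := by
    have : ∀ n, f (r n) + c * ∑ k ∈ range n, a k ^ 2 ≤ f (r 0) := by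
      intro n
      induction n with
      | zero => simp
      | succ n ih =>
        rw [sum_range_succ, mul_add]
        have := hdec n
        linarith
    intro n
    rw [le_div_iff₀ hc]
    have h := this n
    have := hf0 n
    linarith
  set A : ℕ → ℝ := fun n => ∑ k ∈ range n, a k with hA
  have hdecomp : ∀ n, ∃ u ∈ G₁, ∃ v ∈ G₂, r 0 - r n = u + v ∧ ‖u‖ ≤ A n ∧ ‖v‖ ≤ A n := by
    intro n
    induction n with
    | zero => exact ⟨0, G₁.zero_mem, 0, G₂.zero_mem, by simp, by simp [hA], by simp [hA]⟩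
    | succ n ih =>
      obtain ⟨u, hu, v, hv, he, hnu, hnv⟩ := ih
      have hAs : A (n + 1) = A n + a n := by simp [hA, sum_range_succ]
      rcases h1 n with h | h
      · refine ⟨u + (r n - r (n + 1)), G₁.add_mem hu h, v, hv, ?_, ?_, ?_⟩
        · have : r 0 - r (n + 1) = (r 0 - r n) + (r n - r (n + 1)) := by abel
          rw [this, he]; abel
        · rw [hAs]; exact (norm_add_le _ _).trans (by gcongr)
        · rw [hAs]; linarith [ha0 n]
      · refine ⟨u, hu, v + (r n - r (n + 1)), G₂.add_mem hv h, ?_, ?_, ?_⟩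
        · have : r 0 - r (n + 1) = (r 0 - r n) + (r n - r (n + 1)) := by abel
          rw [this, he]; abel
        · rw [hAs]; linarith [ha0 n]
        · rw [hAs]; exact (norm_add_le _ _).trans (by gcongr)
  have hJ : ∀ n g, (J (r (n + 1)) g = 0 ∨ J (r (n + 2)) g = 0) →
      |J (r (n + 2)) g| ≤ C * a (n + 1) * ‖g‖ := by
    intro n g h
    rcases h with h | h
    · have := hlip (n + 1) g
      rw [h, sub_zero] at this
      exact this
    · rw [h, abs_zero]
      have := ha0 (n + 1)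
      positivity
  have hkey : ∀ n, ∀ u ∈ G₁, ∀ v ∈ G₂, ∀ K, ‖u‖ ≤ K → ‖v‖ ≤ K →
      f (r (n + 2)) + c * ‖r 0 - (u + v) - r (n + 2)‖ ^ 2 ≤
        f (r 0 - (u + v)) + 2 * C * (a (n + 1) * (A (n + 2) + K)) := by
    intro n u hu v hv K hKu hKv
    obtain ⟨u', hu', v', hv', he, hnu, hnv⟩ := hdecomp (n + 2)
    have h := hconv (n + 2) (r 0 - (u + v) - r (n + 2))
    rw [add_sub_cancel] at h
    have hd : r 0 - (u + v) - r (n + 2) = (u' - u) + (v' - v) := by
      have : r 0 - (u + v) - r (n + 2) = (r 0 - r (n + 2)) - (u + v) := by abel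
      rw [this, he]; abel
    have hb1 := hJ n (u' - u) (h3 n _ (G₁.sub_mem hu' hu))
    have hb2 := hJ n (v' - v) (h4 n _ (G₂.sub_mem hv' hv))
    have hn1 : ‖u' - u‖ ≤ A (n + 2) + K := (norm_sub_le _ _).trans (by gcongr)
    have hn2 : ‖v' - v‖ ≤ A (n + 2) + K := (norm_sub_le _ _).trans (by gcongr)
    have hCa : 0 ≤ C * a (n + 1) := mul_nonneg hC (ha0 _)
    have hb1' : |J (r (n + 2)) (u' - u)| ≤ C * a (n + 1) * (A (n + 2) + K) :=
      hb1.trans (by gcongr)
    have hb2' : |J (r (n + 2)) (v' - v)| ≤ C * a (n + 1) * (A (n + 2) + K) :=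
      hb2.trans (by gcongr)
    have hJd : J (r (n + 2)) (r 0 - (u + v) - r (n + 2)) =
        J (r (n + 2)) (u' - u) + J (r (n + 2)) (v' - v) := by rw [hd, map_add]
    rw [hJd] at h
    have := neg_abs_le (J (r (n + 2)) (u' - u))
    have := neg_abs_le (J (r (n + 2)) (v' - v))
    nlinarith
  have hfreq : ∀ K, 0 ≤ K → ∀ ε, 0 < ε → ∀ N, ∃ n, N ≤ n ∧
      2 * C * (a (n + 1) * (A (n + 2) + K)) ≤ ε := by
    intro K hK ε hε N
    have hpos : 0 < ε / (2 * C + 1) := by positivity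
    have := jones a ha0 _ hsq K hK _ hpos
    rw [Filter.frequently_atTop] at this
    obtain ⟨m, hm, hm'⟩ := this (N + 1)
    obtain ⟨n, rfl⟩ : ∃ n, m = n + 1 := ⟨m - 1, by omega⟩
    refine ⟨n, by omega, ?_⟩
    have hx : 0 ≤ a (n + 1) * (A (n + 2) + K) := by
      have := ha0 (n + 1)
      have : 0 ≤ A (n + 2) := sum_nonneg (fun k _ => ha0 k)
      positivity
    have hm'' : a (n + 1) * (A (n + 2) + K) ≤ ε / (2 * C + 1) := hm'
    rw [le_div_iff₀ (by positivity)] at hm''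
    nlinarith
  have hbdd : BddBelow (Set.range fun n => f (r n)) := ⟨0, by rintro _ ⟨n, rfl⟩; exact hf0 n⟩
  have hlim := tendsto_atTop_ciInf hanti hbdd
  set L := ⨅ n, f (r n) with hL
  have hLle : ∀ n, L ≤ f (r n) := fun n => ciInf_le hbdd n
  have hcauchy : CauchySeq r := by
    rw [Metric.cauchySeq_iff']
    intro ε hε
    have hpos : 0 < c * (ε / 2) ^ 2 / 4 := by positivity
    obtain ⟨N, hN⟩ := eventually_atTop.mp (hlim.eventually (gt_mem_nhds (lt_add_of_pos_right L hpos)))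
    refine ⟨N, fun m hm => ?_⟩
    obtain ⟨u, hu, v, hv, he, hnu, hnv⟩ := hdecomp m
    obtain ⟨u', hu', v', hv', he', hnu', hnv'⟩ := hdecomp N
    have hAm : 0 ≤ A m := sum_nonneg (fun k _ => ha0 k)
    have hAN : 0 ≤ A N := sum_nonneg (fun k _ => ha0 k)
    obtain ⟨n, -, hn⟩ := hfreq (A m + A N) (by positivity) _ hpos 0
    have k1 := hkey n u hu v hv (A m + A N) (by linarith) (by linarith)
    have k2 := hkey n u' hu' v' hv' (A m + A N) (by linarith) (by linarith)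
    rw [← he, sub_sub_cancel] at k1
    rw [← he', sub_sub_cancel] at k2
    have l1 := hN m hm
    have l2 := hN N le_rfl
    have l3 := hLle (n + 2)
    have e1 : ‖r m - r (n + 2)‖ < ε / 2 := by
      have : c * ‖r m - r (n + 2)‖ ^ 2 < c * (ε / 2) ^ 2 := by nlinarith
      have := lt_of_mul_lt_mul_left this hc.le
      exact lt_of_pow_lt_pow_left₀ 2 (by positivity) this
    have e2 : ‖r N - r (n + 2)‖ < ε / 2 := by
      have : c * ‖r N - r (n + 2)‖ ^ 2 < c * (ε / 2) ^ 2 := by nlinarith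
      have := lt_of_mul_lt_mul_left this hc.le
      exact lt_of_pow_lt_pow_left₀ 2 (by positivity) this
    rw [← dist_eq_norm] at e1 e2
    have := dist_triangle_right (r m) (r N) (r (n + 2))
    linarith
  obtain ⟨y, hy⟩ := cauchySeq_tendsto_of_complete hcauchy
  refine ⟨y, hy, fun u hu v hv => ?_⟩
  have hfy : f y = L := tendsto_nhds_unique ((hf.tendsto y).comp hy) hlim
  rw [hfy]
  refine le_of_forall_pos_le_add (fun ε hε => ?_)
  obtain ⟨n, -, hn⟩ := hfreq (‖u‖ + ‖v‖) (by positivity) ε hε 0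
  have k1 := hkey n u hu v hv (‖u‖ + ‖v‖) (by linarith [norm_nonneg v]) (by linarith [norm_nonneg u])
  have := hLle (n + 2)
  have : 0 ≤ c * ‖r 0 - (u + v) - r (n + 2)‖ ^ 2 := by positivity
  linarith

end Pool.Agent.Lib.MP_b372c7_an
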