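import Mathlib
import Pool.Agent.Lib.MP_b372c7_an.Abstract

set_option autoImplicit false

open Filter Topology
open scoped InnerProductSpace

namespace Pool.Agent.Lib.MP_b372c7_an

/-- A copy of the Hilbert space `H`, to be renormed by
`(|x|^4 + <e,x>^4)^(1/4)`. -/
def Tw (H : Type) (_e : H) : Type := H

section
variable {H : Type} [NormedAddCommGroup H] [InnerProductSpace ℝ H] (e : H)

instance : AddCommGroup (Tw H e) := inferInstanceAs (AddCommGroup H)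
instance : Module ℝ (Tw H e) := inferInstanceAs (Module ℝ H)

/-- The identity map from the copy to `H`. -/
def toH : Tw H e ≃ₗ[ℝ] H := LinearEquiv.refl ℝ H

instance fact4 : Fact ((1 : ENNReal) ≤ 4) := ⟨by norm_num⟩

/-- The embedding in the `l^4` sum of `H` and the real line. -/
noncomputable def emb : Tw H e →ₗ[ℝ] WithLp 4 (H × ℝ) :=
  (WithLp.linearEquiv 4 ℝ (H × ℝ)).symm.toLinearMap ∘ₗ
    (LinearMap.prod (toH e).toLinearMap ((innerₛₗ ℝ e) ∘ₗ (toH e).toLinearMap))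

theorem emb_fst (x : Tw H e) : (emb e x).fst = toH e x := rfl
theorem emb_snd (x : Tw H e) : (emb e x).snd = ⟪e, toH e x⟫_ℝ := rfl

theorem emb_injective : Function.Injective (emb e) := by
  intro x y h
  have : (emb e x).fst = (emb e y).fst := by rw [h]
  rw [emb_fst, emb_fst] at this
  exact (toH e).injective this

noncomputable instance : NormedAddCommGroup (Tw H e) :=
  NormedAddCommGroup.induced (Tw H e) (WithLp 4 (H × ℝ)) (emb e) (emb_injective e)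

noncomputable instance : NormedSpace ℝ (Tw H e) :=
  NormedSpace.induced ℝ (Tw H e) (WithLp 4 (H × ℝ)) (emb e)

theorem norm_def (x : Tw H e) : ‖x‖ = ‖emb e x‖ := rfl

theorem norm_pow_four (x : Tw H e) : ‖x‖ ^ 4 = ‖toH e x‖ ^ 4 + ⟪e, toH e x⟫_ℝ ^ 4 := by
  rw [norm_def, WithLp.prod_norm_eq_of_nat 4 (by norm_num), emb_fst, emb_snd]
  have h : 0 ≤ ‖toH e x‖ ^ 4 + ‖⟪e, toH e x⟫_ℝ‖ ^ 4 := by positivity
  rw [one_div, Real.rpow_inv_natCast_pow h (by norm_num), Real.norm_eq_abs, Even.pow_abs (by decide)]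

theorem norm_toH_le (x : Tw H e) : ‖toH e x‖ ≤ ‖x‖ := by
  have h := norm_pow_four e x
  have h2 : 0 ≤ ⟪e, toH e x⟫_ℝ ^ 4 := by positivity
  exact le_of_pow_le_pow_left₀ (n := 4) (by norm_num) (norm_nonneg _) (by linarith)

variable {e}

theorem abs_inner_le (he : ‖e‖ = 1) (v : H) : |⟪e, v⟫_ℝ| ≤ ‖v‖ := by
  simpa [he] using abs_real_inner_le_norm e v

theorem norm_pow_four_le (he : ‖e‖ = 1) (x : Tw H e) : ‖x‖ ^ 4 ≤ 2 * ‖toH e x‖ ^ 4 := by
  have h := norm_pow_four e x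
  have h1 := abs_inner_le he (toH e x)
  have h2 : ⟪e, toH e x⟫_ℝ ^ 4 ≤ ‖toH e x‖ ^ 4 := by
    rw [← Even.pow_abs (by decide)]
    gcongr
  linarith

theorem norm_le_two (he : ‖e‖ = 1) (x : Tw H e) : ‖x‖ ≤ 2 * ‖toH e x‖ := by
  have h := norm_pow_four_le he x
  have h2 : 0 ≤ ‖toH e x‖ ^ 4 := by positivity
  exact le_of_pow_le_pow_left₀ (n := 4) (by norm_num) (by positivity) (by nlinarith)

/-- The identity as a continuous linear equivalence. -/
noncomputable def toHL (he : ‖e‖ = 1) : Tw H e ≃L[ℝ] H :=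
  (toH e).toContinuousLinearEquivOfBounds 1 2 (fun x => by simpa using norm_toH_le e x)
    (fun x => by simpa using norm_le_two he ((toH e).symm x))

theorem toHL_apply (he : ‖e‖ = 1) (x : Tw H e) : toHL he x = toH e x := rfl

theorem complete [CompleteSpace H] (he : ‖e‖ = 1) : CompleteSpace (Tw H e) :=
  ((toHL he).isUniformEmbedding.isUniformInducing.completeSpace_congr (toHL he).surjective).mpr
    inferInstance

theorem reflexive [CompleteSpace H] (he : ‖e‖ = 1) :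
    Function.Surjective (NormedSpace.inclusionInDoubleDual ℝ (Tw H e)) := by
  intro Φ
  let T : H →L[ℝ] StrongDual ℝ (Tw H e) :=
    ((ContinuousLinearMap.compL ℝ (Tw H e) H ℝ).flip (toHL he : Tw H e →L[ℝ] H)).comp (innerSL ℝ)
  have hT : ∀ (v : H) (x : Tw H e), T v x = ⟪v, toH e x⟫_ℝ := fun v x => rfl
  let w : H := (InnerProductSpace.toDual ℝ H).symm (Φ.comp T)
  refine ⟨(toH e).symm w, ?_⟩
  ext l
  let v : H := (InnerProductSpace.toDual ℝ H).symm (l.comp ((toHL he).symm : H →L[ℝ] Tw H e))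
  have hl : l = T v := by
    ext x
    rw [hT, InnerProductSpace.toDual_symm_apply]
    rfl
  rw [NormedSpace.dual_def, hl, hT, LinearEquiv.apply_symm_apply, real_inner_comm,
    InnerProductSpace.toDual_symm_apply]
  rfl

theorem strict (x y : Tw H e) (hx : ‖x‖ = 1) (hy : ‖y‖ = 1) (hxy : x ≠ y) : ‖x + y‖ < 2 := by
  have h1 := norm_pow_four e x
  have h2 := norm_pow_four e y
  have h3 := norm_pow_four e (x + y)
  rw [hx] at h1
  rw [hy] at h2
  rw [map_add, inner_add_right] at h3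
  have hpar := parallelogram_law_with_norm ℝ (toH e x) (toH e y)
  have hne : 0 < ‖toH e x - toH e y‖ := by
    rw [norm_pos_iff, sub_ne_zero]
    exact fun h => hxy ((toH e).injective h)
  set a := ⟪e, toH e x⟫_ℝ
  set b := ⟪e, toH e y⟫_ℝ
  set p := ‖toH e x‖
  set q := ‖toH e y‖
  set s := ‖toH e x + toH e y‖
  set t := ‖toH e x - toH e y‖
  have hs0 : 0 ≤ s := norm_nonneg _
  have hs2 : s ^ 2 < 2 * (p ^ 2 + q ^ 2) := by nlinarith
  have hs4 : s ^ 4 < 8 * (p ^ 4 + q ^ 4) := by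
    have : (s ^ 2) ^ 2 < (2 * (p ^ 2 + q ^ 2)) ^ 2 := by gcongr
    nlinarith [sq_nonneg (p ^ 2 - q ^ 2)]
  have hab : (a + b) ^ 4 ≤ 8 * (a ^ 4 + b ^ 4) := by
    have h5 : (a + b) ^ 2 ≤ 2 * (a ^ 2 + b ^ 2) := by nlinarith [sq_nonneg (a - b)]
    have : ((a + b) ^ 2) ^ 2 ≤ (2 * (a ^ 2 + b ^ 2)) ^ 2 := by gcongr
    nlinarith [sq_nonneg (a ^ 2 - b ^ 2)]
  exact lt_of_pow_lt_pow_left₀ 4 (by norm_num) (by nlinarith)

variable (e) in
/-- The derivative of the fourth power of the norm. -/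
noncomputable def grad (y : Tw H e) : Tw H e →ₗ[ℝ] ℝ :=
  (innerₛₗ ℝ ((4 * ‖toH e y‖ ^ 2) • toH e y + (4 * ⟪e, toH e y⟫_ℝ ^ 3) • e)) ∘ₗ (toH e).toLinearMap

theorem grad_apply (y d : Tw H e) : grad e y d =
    4 * ‖toH e y‖ ^ 2 * ⟪toH e y, toH e d⟫_ℝ + 4 * ⟪e, toH e y⟫_ℝ ^ 3 * ⟪e, toH e d⟫_ℝ := by
  simp [grad]

theorem expand (y d : Tw H e) (t : ℝ) : ‖y + t • d‖ ^ 4 =
    (‖toH e y‖ ^ 2 + 2 * t * ⟪toH e y, toH e d⟫_ℝ + t ^ 2 * ‖toH e d‖ ^ 2) ^ 2 +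
      (⟪e, toH e y⟫_ℝ + t * ⟪e, toH e d⟫_ℝ) ^ 4 := by
  rw [norm_pow_four, map_add, map_smul, inner_add_right, inner_smul_right]
  have : ‖toH e y + t • toH e d‖ ^ 2 =
      ‖toH e y‖ ^ 2 + 2 * t * ⟪toH e y, toH e d⟫_ℝ + t ^ 2 * ‖toH e d‖ ^ 2 := by
    rw [norm_add_sq_real, inner_smul_right, norm_smul, mul_pow, Real.norm_eq_abs, sq_abs]
    ring
  rw [← this]
  ring

theorem conv (y d : Tw H e) :
    ‖y‖ ^ 4 + grad e y d + 2 * ‖toH e y‖ ^ 2 * ‖toH e d‖ ^ 2 ≤ ‖y + d‖ ^ 4 := by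
  have h := expand y d 1
  rw [one_smul] at h
  rw [h, norm_pow_four, grad_apply]
  set a := ⟪e, toH e y⟫_ℝ
  set b := ⟪e, toH e d⟫_ℝ
  set p := ‖toH e y‖
  set q := ‖toH e d‖
  set s := ⟪toH e y, toH e d⟫_ℝ
  nlinarith [sq_nonneg (2 * s + q ^ 2), sq_nonneg (2 * a * b + b ^ 2), sq_nonneg (a * b)]

theorem first_order (y g : Tw H e) (h : ∀ t : ℝ, ‖y‖ ≤ ‖y + t • g‖) : grad e y g = 0 := by
  rw [grad_apply]
  set a := ⟪e, toH e y⟫_ℝ with ha
  set b := ⟪e, toH e g⟫_ℝ with hb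
  set p := ‖toH e y‖ with hp
  set q := ‖toH e g‖ with hq
  set s := ⟪toH e y, toH e g⟫_ℝ with hs
  let φ : ℝ → ℝ := fun t => (p ^ 2 + 2 * t * s + t ^ 2 * q ^ 2) ^ 2 + (a + t * b) ^ 4
  have hφ : ∀ t, ‖y + t • g‖ ^ 4 = φ t := fun t => expand y g t
  have hmin : IsLocalMin φ 0 := by
    refine Filter.Eventually.of_forall (fun t => ?_)
    rw [← hφ, ← hφ, zero_smul, add_zero]
    have := h t
    gcongr
  have hd : HasDerivAt φ (4 * p ^ 2 * s + 4 * a ^ 3 * b) 0 := by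
    have h1 : HasDerivAt (fun t : ℝ => p ^ 2 + 2 * t * s + t ^ 2 * q ^ 2) (2 * s) 0 := by
      have := (((hasDerivAt_id' (0 : ℝ)).const_mul 2).mul_const s).const_add (p ^ 2)
      have h2 := ((hasDerivAt_id' (0 : ℝ)).fun_pow 2).mul_const (q ^ 2)
      exact (this.fun_add h2).congr_deriv (by simp)
    have h2 : HasDerivAt (fun t : ℝ => a + t * b) b 0 :=
      (((hasDerivAt_id' (0 : ℝ)).mul_const b).const_add a).congr_deriv (by simp)
    have h3 := (h1.fun_pow 2).fun_add (h2.fun_pow 4)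
    exact h3.congr_deriv (by simp; ring)
  exact hmin.hasDerivAt_eq_zero hd

theorem lip (he : ‖e‖ = 1) (R : ℝ) (y z d : Tw H e) (hy : ‖y‖ ≤ R) (hz : ‖z‖ ≤ R) :
    |grad e y d - grad e z d| ≤ 24 * R ^ 2 * ‖z - y‖ * ‖d‖ := by
  rw [grad_apply, grad_apply]
  have hR : 0 ≤ R := (norm_nonneg _).trans hy
  have hy' := (norm_toH_le e y).trans hy
  have hz' := (norm_toH_le e z).trans hz
  have hd' := norm_toH_le e d
  have hyz : ‖toH e y - toH e z‖ ≤ ‖z - y‖ := by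
    rw [← map_sub, norm_sub_rev z y]; exact norm_toH_le e _
  have ha := (abs_inner_le he (toH e y)).trans hy'
  have hb := (abs_inner_le he (toH e z)).trans hz'
  have hδ := (abs_inner_le he (toH e d)).trans hd'
  have hab : |⟪e, toH e y⟫_ℝ - ⟪e, toH e z⟫_ℝ| ≤ ‖z - y‖ := by
    rw [← inner_sub_right]; exact (abs_inner_le he _).trans hyz
  have hs : |⟪toH e y, toH e d⟫_ℝ - ⟪toH e z, toH e d⟫_ℝ| ≤ ‖z - y‖ * ‖d‖ := by
    rw [← inner_sub_left]
    exact (abs_real_inner_le_norm _ _).trans (by gcongr)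
  have ht : |⟪toH e z, toH e d⟫_ℝ| ≤ R * ‖d‖ :=
    (abs_real_inner_le_norm _ _).trans (by gcongr)
  have hpq : |‖toH e y‖ - ‖toH e z‖| ≤ ‖z - y‖ := (abs_norm_sub_norm_le _ _).trans hyz
  have hp0 : 0 ≤ ‖toH e y‖ := norm_nonneg _
  have hq0 : 0 ≤ ‖toH e z‖ := norm_nonneg _
  have hD : 0 ≤ ‖d‖ := norm_nonneg _
  have hN : 0 ≤ ‖z - y‖ := norm_nonneg _
  set a := ⟪e, toH e y⟫_ℝ
  set b := ⟪e, toH e z⟫_ℝ
  set δ := ⟪e, toH e d⟫_ℝ
  set p := ‖toH e y‖
  set q := ‖toH e z‖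
  set s := ⟪toH e y, toH e d⟫_ℝ
  set t := ⟪toH e z, toH e d⟫_ℝ
  set N := ‖z - y‖
  set D := ‖d‖
  have e1 : 4 * p ^ 2 * s + 4 * a ^ 3 * δ - (4 * q ^ 2 * t + 4 * b ^ 3 * δ) =
      4 * (p ^ 2 * (s - t)) + 4 * ((p - q) * (p + q) * t) +
        4 * ((a - b) * (a ^ 2 + a * b + b ^ 2) * δ) := by ring
  have b1 : |p ^ 2 * (s - t)| ≤ R ^ 2 * (N * D) := by
    rw [abs_mul, abs_of_nonneg (sq_nonneg p)]; gcongr
  have b2 : |(p - q) * (p + q) * t| ≤ N * (R + R) * (R * D) := by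
    rw [abs_mul, abs_mul, abs_of_nonneg (add_nonneg hp0 hq0)]; gcongr
  have b3 : |(a - b) * (a ^ 2 + a * b + b ^ 2) * δ| ≤ N * (3 * R ^ 2) * D := by
    have : |a ^ 2 + a * b + b ^ 2| ≤ 3 * R ^ 2 := by
      have h1 : |a ^ 2| ≤ R ^ 2 := by rw [abs_pow]; gcongr
      have h2 : |b ^ 2| ≤ R ^ 2 := by rw [abs_pow]; gcongr
      have h3 : |a * b| ≤ R * R := by rw [abs_mul]; gcongr
      have := abs_add_three (a ^ 2) (a * b) (b ^ 2)
      nlinarith
    rw [abs_mul, abs_mul]; gcongr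
  rw [e1]
  have := abs_add_three (4 * (p ^ 2 * (s - t))) (4 * ((p - q) * (p + q) * t))
    (4 * ((a - b) * (a ^ 2 + a * b + b ^ 2) * δ))
  rw [abs_mul 4, abs_mul 4, abs_mul 4, abs_of_nonneg (by norm_num : (0 : ℝ) ≤ 4)] at this
  nlinarith

theorem orth_of_min (G : Submodule ℝ (Tw H e)) (x y : Tw H e) (h1 : x - y ∈ G)
    (h2 : ‖y‖ = Metric.infDist x (G : Set (Tw H e))) : ∀ g ∈ G, grad e y g = 0 := by
  intro g hg
  refine first_order y g (fun t => ?_)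
  rw [h2]
  have hm : x - y - t • g ∈ (G : Set (Tw H e)) := G.sub_mem h1 (G.smul_mem t hg)
  refine (Metric.infDist_le_dist_of_mem hm).trans (le_of_eq ?_)
  rw [dist_eq_norm]
  congr 1
  abel

theorem admits [CompleteSpace H] (he : ‖e‖ = 1) (G₁ G₂ : Submodule ℝ (Tw H e))
    (r : ℕ → Tw H e)
    (hr1 : ∀ k : ℕ, r (2 * k) - r (2 * k + 1) ∈ G₁ ∧
      ‖r (2 * k + 1)‖ = Metric.infDist (r (2 * k)) (G₁ : Set (Tw H e)))
    (hr2 : ∀ k : ℕ, r (2 * k + 1) - r (2 * k + 2) ∈ G₂ ∧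
      ‖r (2 * k + 2)‖ = Metric.infDist (r (2 * k + 1)) (G₂ : Set (Tw H e))) :
    ∃ y : Tw H e, Filter.Tendsto r Filter.atTop (nhds y) ∧
      r 0 - y ∈ (G₁ ⊔ G₂).topologicalClosure ∧
      ‖y‖ = Metric.infDist (r 0) ((G₁ ⊔ G₂).topologicalClosure : Set (Tw H e)) := by
  have := complete he
  have o1 : ∀ k, ∀ g ∈ G₁, grad e (r (2 * k + 1)) g = 0 :=
    fun k => orth_of_min G₁ _ _ (hr1 k).1 (hr1 k).2
  have o2 : ∀ k, ∀ g ∈ G₂, grad e (r (2 * k + 2)) g = 0 :=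
    fun k => orth_of_min G₂ _ _ (hr2 k).1 (hr2 k).2
  have h1 : ∀ n, r n - r (n + 1) ∈ G₁ ∨ r n - r (n + 1) ∈ G₂ := by
    intro n
    obtain ⟨k, rfl | rfl⟩ := Nat.even_or_odd' n
    · exact Or.inl (hr1 k).1
    · exact Or.inr (hr2 k).1
  have h2 : ∀ n, grad e (r (n + 1)) (r n - r (n + 1)) = 0 := by
    intro n
    obtain ⟨k, rfl | rfl⟩ := Nat.even_or_odd' n
    · exact o1 k _ (hr1 k).1
    · exact o2 k _ (hr2 k).1
  have h3 : ∀ n, ∀ g ∈ G₁, grad e (r (n + 1)) g = 0 ∨ grad e (r (n + 2)) g = 0 := by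
    intro n g hg
    obtain ⟨k, rfl | rfl⟩ := Nat.even_or_odd' n
    · exact Or.inl (o1 k g hg)
    · exact Or.inr (o1 (k + 1) g hg)
  have h4 : ∀ n, ∀ g ∈ G₂, grad e (r (n + 1)) g = 0 ∨ grad e (r (n + 2)) g = 0 := by
    intro n g hg
    obtain ⟨k, rfl | rfl⟩ := Nat.even_or_odd' n
    · exact Or.inr (o2 k g hg)
    · exact Or.inl (o2 k g hg)
  have hanti : Antitone (fun n => ‖r n‖) := by
    refine antitone_nat_of_succ_le (fun n => ?_)
    have hc := conv (r (n + 1)) (r n - r (n + 1))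
    rw [h2 n, add_zero, add_sub_cancel] at hc
    have : 0 ≤ 2 * ‖toH e (r (n + 1))‖ ^ 2 * ‖toH e (r n - r (n + 1))‖ ^ 2 := by positivity
    exact le_of_pow_le_pow_left₀ (n := 4) (by norm_num) (norm_nonneg _) (by linarith)
  have hmem : ∀ n, r 0 - r n ∈ G₁ ⊔ G₂ := by
    intro n
    induction n with
    | zero => simp
    | succ n ih =>
      have : r 0 - r (n + 1) = (r 0 - r n) + (r n - r (n + 1)) := by abel
      rw [this]
      refine Submodule.add_mem _ ih ?_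
      rcases h1 n with h | h
      · exact Submodule.mem_sup_left h
      · exact Submodule.mem_sup_right h
  have key : ∃ y, Tendsto r atTop (𝓝 y) ∧ ∀ u ∈ G₁, ∀ v ∈ G₂, ‖y‖ ≤ ‖r 0 - (u + v)‖ := by
    have hbdd : BddBelow (Set.range fun n => ‖r n‖) :=
      ⟨0, by rintro _ ⟨n, rfl⟩; exact norm_nonneg _⟩
    have hlim := tendsto_atTop_ciInf hanti hbdd
    set L := ⨅ n, ‖r n‖ with hL
    have hLle : ∀ n, L ≤ ‖r n‖ := fun n => ciInf_le hbdd n
    have hL0 : 0 ≤ L := le_ciInf (fun n => norm_nonneg _)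
    rcases hL0.eq_or_lt with h0 | hpos
    · refine ⟨0, ?_, fun u _ v _ => by simp⟩
      rw [← h0] at hlim
      exact tendsto_zero_iff_norm_tendsto_zero.mpr hlim
    · obtain ⟨y, hy, hy'⟩ := alternating (fun x : Tw H e => ‖x‖ ^ 4) (by fun_prop) (grad e) G₁ G₂ r
        (L ^ 2 / 8) (24 * ‖r 0‖ ^ 2) (by positivity) (by positivity) (fun n => by positivity)
        (fun n d => by
          refine le_trans ?_ (conv (r n) d)
          have a1 : L / 2 ≤ ‖toH e (r n)‖ := by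
            have := norm_le_two he (r n)
            have := hLle n
            linarith
          have a2 : ‖d‖ / 2 ≤ ‖toH e d‖ := by
            have := norm_le_two he d
            linarith
          have : 2 * (L / 2) ^ 2 * (‖d‖ / 2) ^ 2 ≤ 2 * ‖toH e (r n)‖ ^ 2 * ‖toH e d‖ ^ 2 := by
            gcongr
          nlinarith)
        (fun n d => lip he _ _ _ d (hanti (Nat.zero_le _)) (hanti (Nat.zero_le _)))
        h1 h2 h3 h4
      exact ⟨y, hy, fun u hu v hv =>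
        le_of_pow_le_pow_left₀ (n := 4) (by norm_num) (norm_nonneg _) (hy' u hu v hv)⟩
  obtain ⟨y, hy, hmin⟩ := key
  have hcl : r 0 - y ∈ (G₁ ⊔ G₂).topologicalClosure := by
    have : Tendsto (fun n => r 0 - r n) atTop (𝓝 (r 0 - y)) := tendsto_const_nhds.sub hy
    exact mem_closure_of_tendsto this (Eventually.of_forall hmem)
  refine ⟨y, hy, hcl, le_antisymm ?_ ?_⟩
  · rw [Submodule.topologicalClosure_coe, Metric.infDist_closure]
    rw [Metric.le_infDist ⟨0, Submodule.zero_mem _⟩]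
    intro g hg
    obtain ⟨u, hu, v, hv, rfl⟩ := Submodule.mem_sup.mp hg
    rw [dist_eq_norm]
    exact hmin u hu v hv
  · refine (Metric.infDist_le_dist_of_mem hcl).trans (le_of_eq ?_)
    rw [dist_eq_norm, sub_sub_cancel]

theorem not_parallelogram (he : ‖e‖ = 1) (w : H) (hw : ‖w‖ = 1) (hew : ⟪e, w⟫_ℝ = 0) :
    ¬ ∀ x y : Tw H e, ‖x + y‖ ^ 2 + ‖x - y‖ ^ 2 = 2 * (‖x‖ ^ 2 + ‖y‖ ^ 2) := by
  intro h
  have h0 := h ((toH e).symm e) ((toH e).symm w)
  have h1 := norm_pow_four e ((toH e).symm e)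
  have h2 := norm_pow_four e ((toH e).symm w)
  have h3 := norm_pow_four e ((toH e).symm e + (toH e).symm w)
  have h4 := norm_pow_four e ((toH e).symm e - (toH e).symm w)
  have hee : ⟪e, e⟫_ℝ = 1 := by rw [real_inner_self_eq_norm_sq, he]; norm_num
  have hp : ‖e + w‖ ^ 2 = 2 := by rw [norm_add_sq_real, he, hw, hew]; norm_num
  have hm : ‖e - w‖ ^ 2 = 2 := by rw [norm_sub_sq_real, he, hw, hew]; norm_num
  have hp4 : ‖e + w‖ ^ 4 = 4 := by
    calc ‖e + w‖ ^ 4 = (‖e + w‖ ^ 2) ^ 2 := by ring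
      _ = 4 := by rw [hp]; norm_num
  have hm4 : ‖e - w‖ ^ 4 = 4 := by
    calc ‖e - w‖ ^ 4 = (‖e - w‖ ^ 2) ^ 2 := by ring
      _ = 4 := by rw [hm]; norm_num
  simp only [map_add, map_sub, LinearEquiv.apply_symm_apply, inner_add_right, inner_sub_right,
    hee, hew, he, hw, hp4, hm4] at h1 h2 h3 h4
  set A := ‖(toH e).symm e‖ ^ 2 with hA
  set B := ‖(toH e).symm w‖ ^ 2 with hB
  set P := ‖(toH e).symm e + (toH e).symm w‖ ^ 2 with hP
  set M := ‖(toH e).symm e - (toH e).symm w‖ ^ 2 with hM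
  have a0 : 0 ≤ A := sq_nonneg _
  have b0 : 0 ≤ B := sq_nonneg _
  have p0 : 0 ≤ P := sq_nonneg _
  have m0 : 0 ≤ M := sq_nonneg _
  have a1 : A ^ 2 = 2 := by rw [hA, ← pow_mul]; norm_num; linarith
  have b1 : B ^ 2 = 1 := by rw [hB, ← pow_mul]; norm_num at h2 ⊢; exact h2
  have p1 : P ^ 2 = 5 := by rw [hP, ← pow_mul]; norm_num; linarith
  have m1 : M ^ 2 = 5 := by rw [hM, ← pow_mul]; norm_num; linarith
  have a2 : 1.4 < A := by nlinarith
  have b2 : 0.99 < B := by nlinarith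
  have p2 : P < 2.3 := by nlinarith
  have m2 : M < 2.3 := by nlinarith
  linarith

end

end Pool.Agent.Lib.MP_b372c7_an
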