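import Mathlib
import Pool.Agent.Lib.MP_b372c7_an.Space

set_option autoImplicit false

open Filter Topology
open scoped InnerProductSpace

namespace Pool.Agent.Lib.MP_b372c7_an

variable {H : Type} [NormedAddCommGroup H] [InnerProductSpace ℝ H] {e : H}

theorem clarkson (he : ‖e‖ = 1) (x y : Tw H e) :
    ‖x + y‖ ^ 4 + ‖x - y‖ ^ 4 / 2 ≤ 8 * (‖x‖ ^ 4 + ‖y‖ ^ 4) := by
  have h1 := norm_pow_four e x
  have h2 := norm_pow_four e y
  have h3 := norm_pow_four e (x + y)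
  have h4 := norm_pow_four_le he (x - y)
  rw [map_add, inner_add_right] at h3
  rw [map_sub] at h4
  have hpar := parallelogram_law_with_norm ℝ (toH e x) (toH e y)
  set a := ⟪e, toH e x⟫_ℝ
  set b := ⟪e, toH e y⟫_ℝ
  set p := ‖toH e x‖
  set q := ‖toH e y‖
  set s := ‖toH e x + toH e y‖
  set t := ‖toH e x - toH e y‖
  have hs2 : s ^ 2 + t ^ 2 = 2 * (p ^ 2 + q ^ 2) := by nlinarith
  have hs4 : s ^ 4 + t ^ 4 ≤ 8 * (p ^ 4 + q ^ 4) := by
    have : (s ^ 2 + t ^ 2) ^ 2 = (2 * (p ^ 2 + q ^ 2)) ^ 2 := by rw [hs2]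
    nlinarith [sq_nonneg (p ^ 2 - q ^ 2), sq_nonneg (s * t)]
  have hab : (a + b) ^ 4 ≤ 8 * (a ^ 4 + b ^ 4) := by
    have h5 : (a + b) ^ 2 ≤ 2 * (a ^ 2 + b ^ 2) := by nlinarith [sq_nonneg (a - b)]
    have : ((a + b) ^ 2) ^ 2 ≤ (2 * (a ^ 2 + b ^ 2)) ^ 2 := by gcongr
    nlinarith [sq_nonneg (a ^ 2 - b ^ 2)]
  linarith

theorem near_close (he : ‖e‖ = 1) (G : Submodule ℝ (Tw H e)) (x g g' : Tw H e) (hg : g ∈ G)
    (hg' : g' ∈ G) : ‖g - g'‖ ^ 4 / 2 ≤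
      8 * (‖x - g‖ ^ 4 + ‖x - g'‖ ^ 4) - 16 * Metric.infDist x (G : Set (Tw H e)) ^ 4 := by
  have h1 := clarkson he (x - g') (x - g)
  have h2 : x - g' - (x - g) = g - g' := by abel
  have h3 : x - g' + (x - g) = (2 : ℝ) • (x - (2 : ℝ)⁻¹ • (g + g')) := by
    rw [smul_sub, smul_smul, mul_inv_cancel₀ (by norm_num), one_smul, two_smul]; abel
  have h4 : Metric.infDist x (G : Set (Tw H e)) ≤ ‖x - (2 : ℝ)⁻¹ • (g + g')‖ := by
    rw [← dist_eq_norm]
    exact Metric.infDist_le_dist_of_mem (G.smul_mem _ (G.add_mem hg hg'))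
  have h5 : 0 ≤ Metric.infDist x (G : Set (Tw H e)) := Metric.infDist_nonneg
  rw [h2, h3, norm_smul, Real.norm_ofNat, mul_pow] at h1
  have h6 : Metric.infDist x (G : Set (Tw H e)) ^ 4 ≤ ‖x - (2 : ℝ)⁻¹ • (g + g')‖ ^ 4 := by gcongr
  linarith

theorem nearest_unique (he : ‖e‖ = 1) (G : Submodule ℝ (Tw H e)) (x g g' : Tw H e) (hg : g ∈ G)
    (hg' : g' ∈ G) (h : ‖x - g‖ = Metric.infDist x (G : Set (Tw H e)))
    (h' : ‖x - g'‖ = Metric.infDist x (G : Set (Tw H e))) : g = g' := by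
  have h1 := near_close he G x g g' hg hg'
  rw [h, h'] at h1
  have h2 : ‖g - g'‖ ^ 4 ≤ 0 := by linarith
  have h3 : ‖g - g'‖ ^ 4 = 0 := le_antisymm h2 (by positivity)
  exact sub_eq_zero.mp (norm_eq_zero.mp (pow_eq_zero_iff (by norm_num) |>.mp h3))

theorem nearest_exists [CompleteSpace H] (he : ‖e‖ = 1) (G : Submodule ℝ (Tw H e))
    (hG : IsClosed (G : Set (Tw H e))) (x : Tw H e) :
    ∃ g ∈ G, ‖x - g‖ = Metric.infDist x (G : Set (Tw H e)) := by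
  have := complete he
  set d := Metric.infDist x (G : Set (Tw H e)) with hd
  have hex : ∀ n : ℕ, ∃ g ∈ G, ‖x - g‖ < d + 1 / ((n : ℝ) + 1) := by
    intro n
    obtain ⟨g, hg, h⟩ := (Metric.infDist_lt_iff (x := x) (s := (G : Set (Tw H e)))
      (r := d + 1 / ((n : ℝ) + 1)) ⟨0, G.zero_mem⟩).mp (lt_add_of_pos_right _ (by positivity))
    exact ⟨g, hg, by rwa [← dist_eq_norm]⟩
  choose g hg hlt using hex
  have hge : ∀ n, d ≤ ‖x - g n‖ := fun n => by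
    rw [← dist_eq_norm]; exact Metric.infDist_le_dist_of_mem (hg n)
  have hlim : Tendsto (fun n => ‖x - g n‖) atTop (𝓝 d) := by
    have h1 : Tendsto (fun n : ℕ => d + 1 / ((n : ℝ) + 1)) atTop (𝓝 (d + 0)) :=
      tendsto_const_nhds.add tendsto_one_div_add_atTop_nhds_zero_nat
    rw [add_zero] at h1
    exact tendsto_of_tendsto_of_tendsto_of_le_of_le tendsto_const_nhds h1 hge (fun n => (hlt n).le)
  have hc : CauchySeq g := by
    rw [Metric.cauchySeq_iff']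
    intro ε hε
    have hpos : 0 < ε ^ 4 / 32 := by positivity
    obtain ⟨N, hN⟩ := eventually_atTop.mp
      ((hlim.pow 4).eventually (gt_mem_nhds (lt_add_of_pos_right (d ^ 4) hpos)))
    refine ⟨N, fun n hn => ?_⟩
    have h1 := near_close he G x (g n) (g N) (hg n) (hg N)
    have h2 := hN n hn
    have h3 := hN N le_rfl
    rw [dist_eq_norm]
    exact lt_of_pow_lt_pow_left₀ 4 hε.le (by rw [← hd] at h1; linarith)
  obtain ⟨y, hy⟩ := cauchySeq_tendsto_of_complete hc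
  refine ⟨y, hG.mem_of_tendsto hy (Eventually.of_forall hg), ?_⟩
  exact tendsto_nhds_unique ((tendsto_const_nhds.sub hy).norm) hlim

end Pool.Agent.Lib.MP_b372c7_an
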